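import Pool.Agent.Helper7.SR.Goals

/-!
# Packet SR-KRO: the lemma of Krogdahl
-/

set_option autoImplicit false

namespace Pool.Agent.Helper91.SR

open Finset Pool.Agent.Helper7.SR
open scoped Classical

/-- A self-map of a finite type whose restriction to a nonempty invariant set `J` has no fixed
point, and which is the identity outside of `J`, yields a permutation different from the identity
which agrees with `h` or with the identity at every point. -/
theorem exists_perm {ι : Type*} [Finite ι] (h : ι → ι) (J : Set ι) (i0 : ι) (hi0 : i0 ∈ J)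
    (hJ : ∀ i ∈ J, h i ∈ J ∧ h i ≠ i) :
    ∃ σ : Equiv.Perm ι, σ ≠ 1 ∧ ∀ i, σ i = h i ∨ σ i = i := by
  classical
  have hbij := Function.bijOn_periodicPts h
  let f : ι → ι := fun i => if i ∈ Function.periodicPts h then h i else i
  have hfinj : Function.Injective f := by
    intro i j hij
    by_cases hi : i ∈ Function.periodicPts h
    · by_cases hj : j ∈ Function.periodicPts h
      · simp only [f, if_pos hi, if_pos hj] at hij
        exact hbij.injOn hi hj hij
      · simp only [f, if_pos hi, if_neg hj] at hij
        exact absurd (hij ▸ hbij.mapsTo hi) hj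
    · by_cases hj : j ∈ Function.periodicPts h
      · simp only [f, if_neg hi, if_pos hj] at hij
        exact absurd (hij ▸ hbij.mapsTo hj) hi
      · simpa only [f, if_neg hi, if_neg hj] using hij
  have hfbij : Function.Bijective f := Finite.injective_iff_bijective.mp hfinj
  refine ⟨Equiv.ofBijective f hfbij, ?_, ?_⟩
  · -- a periodic point in `J`
    have hJn : ∀ n : ℕ, h^[n] i0 ∈ J := by
      intro n
      induction n with
      | zero => simpa using hi0
      | succ n ih => rw [Function.iterate_succ_apply']; exact (hJ _ ih).1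
    obtain ⟨a, b, hab, he⟩ := Finite.exists_ne_map_eq_of_infinite (fun n : ℕ => h^[n] i0)
    have key : ∀ a b : ℕ, a < b → h^[a] i0 = h^[b] i0 → h^[a] i0 ∈ Function.periodicPts h := by
      intro a b hlt he
      refine ⟨b - a, by omega, ?_⟩
      change h^[b - a] (h^[a] i0) = h^[a] i0
      rw [← Function.iterate_add_apply, Nat.sub_add_cancel hlt.le, ← he]
    obtain ⟨n, hn⟩ : ∃ n, h^[n] i0 ∈ Function.periodicPts h := by
      rcases lt_or_gt_of_ne hab with hlt | hlt
      · exact ⟨a, key a b hlt he⟩
      · exact ⟨b, key b a hlt he.symm⟩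
    intro h1
    have h2 : f (h^[n] i0) = h^[n] i0 := by
      have := congrArg (fun σ : Equiv.Perm ι => σ (h^[n] i0)) h1
      simpa using this
    simp only [f, if_pos hn] at h2
    exact (hJ _ (hJn n)).2 h2
  · intro i
    by_cases hi : i ∈ Function.periodicPts h
    · left; simp [f, hi]
    · right; simp [f, hi]

theorem s_kro.{u} : Pool.Agent.Helper7.SR.S_KRO.{u} := by
  intro α M T m x y hT hx hy hArc huniq
  by_contra hdep
  have hTE : (T : Set α) ⊆ M.E := hT.subset_ground
  set X : Set α := (((T \ univ.image y) ∪ univ.image x : Finset α) : Set α) with hX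
  have hXE : X ⊆ M.E := by
    intro z hz
    rw [hX] at hz
    simp only [coe_union, Set.mem_union, coe_sdiff, Set.mem_sdiff, mem_coe, coe_image,
      Set.mem_image, coe_univ, Set.mem_univ, true_and] at hz
    rcases hz with hz | ⟨i, rfl⟩
    · exact hTE hz.1
    · exact M.closure_subset_ground _ (hArc i).2.2.1
  have hD : M.Dep X := ⟨hdep, hXE⟩
  obtain ⟨K, hKX, hK⟩ := hD.exists_isCircuit_subset
  have hmemX : ∀ z ∈ K, (z ∈ T ∧ ∀ i, y i ≠ z) ∨ ∃ i, x i = z := by
    intro z hz
    have := hKX hz
    rw [hX] at this
    simp only [coe_union, Set.mem_union, coe_sdiff, Set.mem_sdiff, mem_coe, coe_image,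
      Set.mem_image, coe_univ, Set.mem_univ, true_and, not_exists] at this
    exact this
  -- `J` is nonempty
  obtain ⟨i0, hi0⟩ : ∃ i, x i ∈ K := by
    by_contra hno
    push Not at hno
    have hKT : K ⊆ (T : Set α) := by
      intro z hz
      rcases hmemX z hz with hz' | ⟨i, rfl⟩
      · exact hz'.1
      · exact absurd hz (hno i)
    exact hK.dep.not_indep (hT.subset hKT)
  have hstep : ∀ i, x i ∈ K → ∃ j, x j ∈ K ∧ j ≠ i ∧ Arc M T (x j) (y i) := by
    intro i hi
    by_contra hno
    push Not at hno
    have herE : ((T.erase (y i) : Finset α) : Set α) ⊆ M.E := by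
      intro z hz
      exact hTE (Finset.mem_coe.mpr (Finset.mem_of_mem_erase (Finset.mem_coe.mp hz)))
    have hsub : K \ {x i} ⊆ M.closure ((T.erase (y i) : Finset α) : Set α) := by
      rintro z ⟨hz, hzi⟩
      rcases hmemX z hz with hz' | ⟨j, rfl⟩
      · refine M.subset_closure _ herE ?_
        rw [Finset.mem_coe, Finset.mem_erase]
        exact ⟨fun h => hz'.2 i h.symm, hz'.1⟩
      · by_contra hnc
        have hji : j ≠ i := by
          rintro rfl
          exact hzi rfl
        exact hno j hz hji ⟨(hArc i).1, (hArc j).2.1, (hArc j).2.2.1, hnc⟩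
    have h1 : x i ∈ M.closure (K \ {x i}) := hK.mem_closure_sdiff_singleton_of_mem hi
    have h2 : M.closure (K \ {x i}) ⊆ M.closure ((T.erase (y i) : Finset α) : Set α) :=
      M.closure_subset_closure_of_subset_closure hsub
    exact (hArc i).2.2.2 (h2 h1)
  choose! g hg using hstep
  let h : Fin m → Fin m := fun i => if x i ∈ K then g i else i
  obtain ⟨σ, hσ1, hσ⟩ := exists_perm h {i | x i ∈ K} i0 hi0 (by
    intro i hi
    have hi' : x i ∈ K := hi
    simp only [h, if_pos hi']
    exact ⟨(hg i hi').1, (hg i hi').2.1⟩)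
  have hτ : σ⁻¹ = 1 := by
    apply huniq
    intro i
    have h3 : σ (σ⁻¹ i) = i := by simp
    set i' := σ⁻¹ i with hi'
    rcases hσ i' with h4 | h4
    · rw [h3] at h4
      by_cases hK' : x i' ∈ K
      · simp only [h, if_pos hK'] at h4
        rw [h4]
        exact (hg i' hK').2.2
      · simp only [h, if_neg hK'] at h4
        rw [h4]
        exact hArc i'
    · rw [h3] at h4
      rw [← h4]
      exact hArc i
  exact hσ1 (inv_eq_one.mp hτ)

end Pool.Agent.Helper91.SR
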