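import Pool.Agent.Helper98.SR.Goals

/-!
# SR, packet XIF
-/

set_option autoImplicit false

open scoped ENNReal
open Finset
open Pool.Agent.Helper98.Saw hiding iv
open Pool.Agent.Helper92.Eps
open Pool.Agent.Helper99.Eps
open Pool.Agent.Helper22.AN
open Pool.Agent.Helper64.SR
open Pool.Agent.Helper98.SawDefs
open Pool.Agent.Helper64.SRDefs
open Pool.Agent.Helper98.SR

namespace Pool.Agent.Helper91.SR.XIF

/-- the sum over the walks of `k` steps -/
noncomputable def aa (s : ℝ) (k : ℕ) : ℝ :=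
  ∑ l ∈ Sw 0 (k + 1), Real.exp (‖pos (l.getLastD 0)‖ / s)

lemma aa_nonneg (s : ℝ) (k : ℕ) : 0 ≤ aa s k :=
  Finset.sum_nonneg fun _ _ => (Real.exp_pos _).le

lemma sum_eq (s : ℝ) (k : ℕ) : ∑ᶠ w ∈ walks k, Real.exp (‖w (Fin.last k)‖ / s) = aa s k := by
  rw [walks_eq, finsum_mem_image (toWalk_injOn k), finsum_mem_coe_finset]
  unfold aa
  apply Finset.sum_congr rfl
  intro l hl
  rw [mem_Sw hex_zero] at hl
  rw [toWalk_apply hl.len]
  congr 3
  have h1 := hl.last_eq
  rw [List.getLast?_eq_getElem?, hl.len, List.getElem?_eq_getElem (by rw [hl.len]; omega)] at h1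
  have := Option.some.inj h1
  simp only [Fin.val_last]
  rw [← this]
  congr 1

lemma inner (s X : ℝ) (hX : 0 ≤ X) (m : ℕ) :
    ∑' w : List V, iv (Saw 0 (m + 1) w) (ENNReal.ofReal X ^ w.length *
      ENNReal.ofReal (Real.exp (‖pos (w.getLastD 0)‖ / s))) =
      ENNReal.ofReal (X ^ (m + 1) * aa s m) := by
  rw [tsum_eq_sum (s := Sw 0 (m + 1))]
  · unfold aa
    rw [Finset.mul_sum, ENNReal.ofReal_sum_of_nonneg
      (fun l _ => mul_nonneg (pow_nonneg hX _) (Real.exp_pos _).le)]
    apply Finset.sum_congr rfl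
    intro l hl
    rw [mem_Sw hex_zero] at hl
    rw [iv_pos hl, hl.len, ENNReal.ofReal_mul (pow_nonneg hX _), ENNReal.ofReal_pow hX]
  · intro l hl
    apply iv_neg
    intro h
    exact hl ((mem_Sw hex_zero).2 h)

lemma group (f : List V → ℝ≥0∞) :
    ∑' w : List V, iv (Sf w) (f w) = ∑' m : ℕ, ∑' w : List V, iv (Saw 0 (m + 1) w) (f w) := by
  rw [ENNReal.tsum_comm]
  apply tsum_congr
  intro w
  by_cases h : Sf w
  · rw [iv_pos h]
    have h0 : w ≠ [] := by
      intro h1
      have := h.head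
      rw [h1] at this
      simp at this
    have hl : 0 < w.length := List.length_pos_iff.2 h0
    rw [tsum_eq_single (w.length - 1)]
    · have h2 : Saw 0 (w.length - 1 + 1) w := by
        rw [Nat.sub_add_cancel hl]; exact h
      rw [iv_pos h2]
    · intro m hm
      apply iv_neg
      intro h2
      apply hm
      have := h2.len
      omega
  · rw [iv_neg h]
    symm
    rw [ENNReal.tsum_eq_zero]
    intro m
    apply iv_neg
    intro h2
    apply h
    have := h2.len
    unfold Sf
    rw [this]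
    exact h2

theorem t (h : S_XNT) : S_XIF := by
  intro n s _
  obtain ⟨-, -, h3⟩ := h
  obtain ⟨hx, -, hwp, -⟩ := h3 n
  have e1 : XS (tn n) s = ∑' m : ℕ, ENNReal.ofReal (xn n ^ (m + 1) * aa s m) := by
    unfold XS
    rw [group]
    apply tsum_congr
    intro m
    rw [← inner s (xn n) hx.le m]
    apply tsum_congr
    intro w
    rw [hwp]
  rw [e1]
  have e2 : ∀ m : ℕ, xn n ^ (m + 1) * aa s m = xn n * (aa s m * xn n ^ m) := by
    intro m; ring
  simp only [e2, sum_eq]
  have hnn : ∀ m : ℕ, 0 ≤ xn n * (aa s m * xn n ^ m) := fun m =>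
    mul_nonneg hx.le (mul_nonneg (aa_nonneg s m) (pow_nonneg hx.le _))
  constructor
  · intro h4
    exact (h4.mul_left (xn n)).tsum_ofReal_lt_top
  · intro h4
    have h5 := ENNReal.summable_toReal h4.ne
    have h6 : (fun m : ℕ => (ENNReal.ofReal (xn n * (aa s m * xn n ^ m))).toReal) =
        fun m => xn n * (aa s m * xn n ^ m) := by
      funext m
      exact ENNReal.toReal_ofReal (hnn m)
    rw [h6] at h5
    exact (summable_mul_left_iff hx.ne').1 h5

end Pool.Agent.Helper91.SR.XIF
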